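import Pool.Agent.W682.BQ.Stm
import Pool.Agent.W360.MQ.Stm

/-! Project DK (MP_515557_an): quasiconvexity of the dual kernels
`G τ = 2 τ |u_z|` for `v ≤ τ`, `det + τ ^ 2` for `v ≥ τ` (`v` the signed smaller singular value).
Definitions and statements of the parts.

Notation: `x, y` are (regularised) moduli of `u_z`, `u_zbar`; `v = x - y`; the flow has the
coefficient `- l(y) conj(a) b / (|a| |b|)`. -/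

set_option autoImplicit false

namespace Pool.Agent.TH316.DK

open MeasureTheory Set Filter Topology
open Pool.Agent.W488.IW Pool.Agent.W488.IX
open Pool.Agent.W360.BQ (Cf Vg QCF S_FLOWF S_NULLF)
open Pool.Agent.W360.MQ (QA)
open Pool.Agent.W682.BQ (JJ)

/-! ### the functions -/

/-- `∫ s κ(s) ds` -/
noncomputable def mz (κ : ℝ → ℝ) : ℝ := 2 * om1 κ 2 - om κ 2

/-- the third primitive of `κ` -/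
noncomputable def om3 (κ : ℝ → ℝ) (t : ℝ) : ℝ := ∫ s in (0 : ℝ)..t, om κ s

noncomputable def f1 (κ : ℝ → ℝ) (x y : ℝ) : ℝ := 2 * y * om κ (x - y) + 2 * om3 κ (x - y)

/-- the energy, cut off by `χ` for large `x` -/
noncomputable def fD (κ χ : ℝ → ℝ) (x y : ℝ) : ℝ := 2 * mz κ * x + χ x * f1 κ x y

noncomputable def Th (κ : ℝ → ℝ) (v : ℝ) : ℝ := v * om κ v - 2 * om3 κ v

/-- coefficient of the exact form in the phase of `a = u_z` -/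
noncomputable def RD (κ χ l : ℝ → ℝ) (C δ x y : ℝ) : ℝ :=
  C + 2 * (mz κ * (x - y) - χ x * Th κ (x - y)) + 2 * mz κ * JJ l y
    + δ * (2 * mz κ * x + 2 * x * y * om1 κ (x - y) * χ x)

/-- coefficient of the exact form in the phase of `b = u_zbar` -/
noncomputable def SD (κ χ : ℝ → ℝ) (δ x y : ℝ) : ℝ := 2 * δ * y ^ 2 * om1 κ (x - y) * χ x

noncomputable def RH (κ l : ℝ → ℝ) (C δ x y : ℝ) : ℝ :=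
  C + 2 * mz κ * (x - y + JJ l y) + 2 * δ * mz κ * x

noncomputable def n1D (κ l : ℝ → ℝ) (C δ ε x y : ℝ) : ℝ :=
  2 * ε ^ 2 * RH κ l C δ x y / (mz κ * (x * (x ^ 2 + ε ^ 2)))

noncomputable def wD (κ χ : ℝ → ℝ) (ε ϑ : ℝ) (F : ℂ × ℂ) : ℝ :=
  fD κ χ (XX ε F.1) (XX ε F.2) + ϑ / 2 * (‖F.1‖ ^ 2 + ‖F.2‖ ^ 2)
noncomputable def eD (κ χ l : ℝ → ℝ) (C δ ε ϑ : ℝ) (F : ℂ × ℂ) : ℝ :=
  RD κ χ l C δ (XX ε F.1) (XX ε F.2) / XX ε F.1 ^ 2 + ϑ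
noncomputable def gD (κ χ : ℝ → ℝ) (δ ε ϑ : ℝ) (F : ℂ × ℂ) : ℝ :=
  SD κ χ δ (XX ε F.1) (XX ε F.2) / XX ε F.2 ^ 2 - ϑ

/-- the coefficients of the flow -/
noncomputable def mD (l : ℝ → ℝ) (ε : ℝ) (F : ℂ × ℂ) : ℂ := ((-l (XX ε F.2) : ℝ) : ℂ) * ss ε F
noncomputable def nD (κ l : ℝ → ℝ) (C δ ε : ℝ) (F : ℂ × ℂ) : ℝ :=
  2 * (1 + δ) + n1D κ l C δ ε (XX ε F.1) (XX ε F.2)

/-! ### cut-offs -/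

/-- cut-off in `y`: `1` up to `R`, `0` from `R + 1` on -/
noncomputable def lc (R t : ℝ) : ℝ := max 0 (min 1 (R + 1 - t))

/-- slow cut-off in `x` -/
structure CutX (η R R' : ℝ) (χ : ℝ → ℝ) : Prop where
  c2 : ContDiff ℝ 2 χ
  nn : ∀ t, 0 ≤ χ t
  le : ∀ t, χ t ≤ 1
  one : ∀ t, t ≤ R → χ t = 1
  zero : ∀ t, R' ≤ t → χ t = 0
  d1 : ∀ t, 0 < t → |deriv χ t| * t ≤ η
  d2 : ∀ t, 0 < t → |deriv (deriv χ) t| * t ^ 2 ≤ η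

def S_CUTX : Prop := ∀ η R : ℝ, 0 < η → 1 ≤ R → ∃ R' : ℝ, R < R' ∧ ∃ χ, CutX η R R' χ

/-! ### derivatives of the functions of `(x,y)` -/

noncomputable def fx (κ χ : ℝ → ℝ) (x y : ℝ) : ℝ :=
  2 * mz κ + χ x * (2 * y * om1 κ (x - y) + 2 * om κ (x - y)) + deriv χ x * f1 κ x y
noncomputable def fy (κ χ : ℝ → ℝ) (x y : ℝ) : ℝ := -(χ x * (2 * y * om1 κ (x - y)))
noncomputable def fxx (κ χ : ℝ → ℝ) (x y : ℝ) : ℝ :=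
  χ x * (2 * y * κ (x - y) + 2 * om1 κ (x - y))
    + 2 * deriv χ x * (2 * y * om1 κ (x - y) + 2 * om κ (x - y)) + deriv (deriv χ) x * f1 κ x y
noncomputable def fxy (κ χ : ℝ → ℝ) (x y : ℝ) : ℝ :=
  -(χ x * (2 * y * κ (x - y))) - deriv χ x * (2 * y * om1 κ (x - y))
noncomputable def fyy (κ χ : ℝ → ℝ) (x y : ℝ) : ℝ :=
  χ x * (2 * y * κ (x - y) - 2 * om1 κ (x - y))
noncomputable def Rx (κ χ : ℝ → ℝ) (δ x y : ℝ) : ℝ :=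
  2 * (mz κ - χ x * ((x - y) * om1 κ (x - y) - om κ (x - y)) - deriv χ x * Th κ (x - y))
    + δ * (2 * mz κ + 2 * y * om1 κ (x - y) * χ x + 2 * x * y * κ (x - y) * χ x
      + 2 * x * y * om1 κ (x - y) * deriv χ x)
noncomputable def Ry (κ χ l : ℝ → ℝ) (δ x y : ℝ) : ℝ :=
  2 * (-mz κ + χ x * ((x - y) * om1 κ (x - y) - om κ (x - y))) + 2 * mz κ * (1 - l y)
    + δ * (2 * x * om1 κ (x - y) * χ x - 2 * x * y * κ (x - y) * χ x)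
noncomputable def Sx (κ χ : ℝ → ℝ) (δ x y : ℝ) : ℝ :=
  2 * δ * y ^ 2 * (κ (x - y) * χ x + om1 κ (x - y) * deriv χ x)
noncomputable def Sy (κ χ : ℝ → ℝ) (δ x y : ℝ) : ℝ :=
  2 * δ * (2 * y * om1 κ (x - y) * χ x - y ^ 2 * κ (x - y) * χ x)

def S_JD : Prop := ∀ (κ χ l : ℝ → ℝ), Bump κ → ContDiff ℝ 2 χ → Continuous l →
  ∀ C δ x y : ℝ,
  HasFDerivAt (fun z : ℝ × ℝ => fD κ χ z.1 z.2) (lin (fx κ χ x y) (fy κ χ x y)) (x, y) ∧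
  HasFDerivAt (fun z : ℝ × ℝ => fx κ χ z.1 z.2) (lin (fxx κ χ x y) (fxy κ χ x y)) (x, y) ∧
  HasFDerivAt (fun z : ℝ × ℝ => fy κ χ z.1 z.2) (lin (fxy κ χ x y) (fyy κ χ x y)) (x, y) ∧
  HasFDerivAt (fun z : ℝ × ℝ => RD κ χ l C δ z.1 z.2)
    (lin (Rx κ χ δ x y) (Ry κ χ l δ x y)) (x, y) ∧
  HasFDerivAt (fun z : ℝ × ℝ => SD κ χ δ z.1 z.2) (lin (Sx κ χ δ x y) (Sy κ χ δ x y)) (x, y)

/-! ### regularity and coefficients -/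

def S_REGD : Prop := ∀ (κ χ : ℝ → ℝ) (η R R' : ℝ), Bump κ → CutX η R R' χ →
  ∀ (C δ ε ϑ : ℝ), 0 < ε →
  ContDiff ℝ 2 (wD κ χ ε ϑ) ∧ (∃ K : ℝ, ∀ F, ‖fderiv ℝ (fderiv ℝ (wD κ χ ε ϑ)) F‖ ≤ K) ∧
  ContDiff ℝ 1 (eD κ χ (lc R') C δ ε ϑ) ∧ ContDiff ℝ 1 (gD κ χ δ ε ϑ)

def S_COEFD : Prop := ∀ (κ : ℝ → ℝ) (R' C δ ε : ℝ), 0 < mz κ → 1 ≤ R' →
  2 * mz κ * (R' + 1) ≤ C → 0 < δ → 0 < ε →
  Cf (mD (lc R') ε) (nD κ (lc R') C δ ε) (2 * (1 + δ))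

/-! ### algebra -/

/-- the cone region -/
def S_ALG1 : Prop := ∀ A B l N ζ e0 n1 ϑ : ℝ, 0 ≤ A → A < 1 → 0 ≤ B → B ≤ 1 → 0 ≤ l → l ≤ 1 →
  1 ≤ N → 0 < ζ → 0 < ϑ → ζ ^ 2 ≤ 2 * ϑ * e0 → 0 ≤ n1 →
  (2 - A ^ 2) * ζ * n1 = 2 * (1 - A ^ 2) * e0 →
  ∀ P Q R : ℝ,
    0 ≤ FpG A B (-l) ζ 0 0 0 0 (N * ζ) (-(l * ζ)) e0 0 0 0 ϑ (2 * N + n1) P Q R ∧
    0 ≤ FmG A B (-l) ζ 0 0 0 0 (N * ζ) (-(l * ζ)) e0 0 0 0 ϑ (2 * N + n1) P Q R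

/-- numerical facts, the other region -/
structure B2 (K η A B ζ k μ E1 e0 n1 e1 e2 e3 e4 e5 : ℝ) : Prop where
  hA : 0 ≤ A ∧ A ≤ 1
  hB : 0 ≤ B ∧ B ≤ 1
  hζ : 0 ≤ ζ ∧ ζ ≤ K
  hμ : 0 ≤ μ ∧ μ ≤ K
  hk : 0 ≤ k
  hE : |E1| ≤ K
  a1 : 1 - A ≤ η
  a2 : k * (1 - A) ≤ η
  a3 : k * (1 - B) ≤ η
  n0 : 0 ≤ n1 ∧ n1 ≤ η
  n2 : k * n1 ≤ η
  c0 : (1 - A ^ 2) * |e0| ≤ η
  c1 : |e1| ≤ η
  c2 : |e2| ≤ η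
  c3 : |e3| ≤ η
  c4 : |e4| ≤ η
  c5 : |e5| ≤ η

def S_ALG2 : Prop := ∀ K ϑ : ℝ, 1 ≤ K → 0 < ϑ → ∃ δ : ℝ, 0 < δ ∧ δ ≤ 1 ∧ ∃ η : ℝ, 0 < η ∧
  ∀ A B ζ k μ E1 e0 n1 e1 e2 e3 e4 e5 : ℝ, B2 K η A B ζ k μ E1 e0 n1 e1 e2 e3 e4 e5 →
  ∀ P Q R : ℝ,
    0 ≤ FpG A B (-1) (ζ + 2 * μ + e1) (k + 2 * μ + e2) (-(2 * μ)) (k - 2 * μ) (-k + e3)
      ((1 + δ) * ζ + δ * k + δ * E1 + e4) (-ζ + δ * (2 * μ - k)) e0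
      (δ * k + e5) (δ * (4 * μ - k)) (4 * δ * μ) ϑ (2 * (1 + δ) + n1) P Q R ∧
    0 ≤ FmG A B (-1) (ζ + 2 * μ + e1) (k + 2 * μ + e2) (-(2 * μ)) (k - 2 * μ) (-k + e3)
      ((1 + δ) * ζ + δ * k + δ * E1 + e4) (-ζ + δ * (2 * μ - k)) e0
      (δ * k + e5) (δ * (4 * μ - k)) (4 * δ * μ) ϑ (2 * (1 + δ) + n1) P Q R

/-! ### the certificate and its consequences -/

def S_PCD : Prop := ∀ κ : ℝ → ℝ, Bump κ → 0 < mz κ → ∀ ϑ : ℝ, 0 < ϑ → ∀ R : ℝ, 1 ≤ R →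
  ∃ δ : ℝ, 0 < δ ∧ ∃ R' : ℝ, R < R' ∧ ∃ χ : ℝ → ℝ, CutX 1 R R' χ ∧
  ∃ C : ℝ, 2 * mz κ * (R' + 1) ≤ C ∧ ∃ ε1 : ℝ, 0 < ε1 ∧ ∀ ε : ℝ, 0 < ε → ε < ε1 →
  ∀ (F : ℂ × ℂ) (p q r : ℂ),
    0 ≤ 2 * DIV (wD κ χ ε ϑ) F p q r (Vg (mD (lc R') ε) (nD κ (lc R') C δ ε) F p q r)
      + OMa (eD κ χ (lc R') C δ ε ϑ) F p q r + OMb (gD κ χ δ ε ϑ) F p q r

def S_QTD : Prop := ∀ κ : ℝ → ℝ, Bump κ → 0 < mz κ → ∀ ϑ : ℝ, 0 < ϑ → ∀ R : ℝ, 1 ≤ R →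
  ∀ ε0 : ℝ, 0 < ε0 → ∃ (R' : ℝ) (χ : ℝ → ℝ), R < R' ∧ CutX 1 R R' χ ∧
  ∃ ε : ℝ, 0 < ε ∧ ε < ε0 ∧ QA (wD κ χ ε ϑ)

/-- without regularisation and cut-off -/
def S_QWD : Prop := ∀ κ : ℝ → ℝ, Bump κ → 0 < mz κ →
  QA (fun F => 2 * mz κ * ‖F.1‖ + f1 κ ‖F.1‖ ‖F.2‖)

/-- **the dual kernel** -/
noncomputable def G (τ x y : ℝ) : ℝ := 2 * τ * x + max (x - y - τ) 0 * (x + y - τ)

/-- representation by the kernels -/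
def S_FKD : Prop := ∀ κ : ℝ → ℝ, Bump κ → ∀ x y : ℝ, 0 ≤ x → 0 ≤ y →
  2 * mz κ * x + f1 κ x y = ∫ τ in (1 / 2 : ℝ)..2, κ τ * G τ x y

def S_QKD : Prop := ∀ τ : ℝ, 0 < τ → QA (fun F => G τ ‖F.1‖ ‖F.2‖)

/-! ### the class `W(A) = |A| m(det A / |A|) + k(det A / |A|)` -/

/-- the functions considered, as functions of `(u_z, u_zbar)` -/
noncomputable def wc (m k : ℝ → ℝ) (F : ℂ × ℂ) : ℝ :=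
  (‖F.1‖ + ‖F.2‖) * m (‖F.1‖ - ‖F.2‖) + k (‖F.1‖ - ‖F.2‖)

/-- rank-one convexity in complex notation -/
def ROC (w : ℂ × ℂ → ℝ) : Prop := ∀ F H : ℂ × ℂ, ‖H.1‖ = ‖H.2‖ →
  ConvexOn ℝ univ (fun t : ℝ => w (F + (t : ℂ) • H))

/-- the theorem in complex notation -/
def S_CLS : Prop := ∀ m k : ℝ → ℝ, ROC (wc m k) → Continuous (wc m k) ∧ QA (wc m k)

section
open scoped Matrix.Norms.L2Operator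

/-- **the theorem** -/
def S_DC : Prop := ∀ (m k : ℝ → ℝ) (W : Matrix (Fin 2) (Fin 2) ℝ → ℝ),
  (∀ A, W A = ‖A‖ * m (A.det / ‖A‖) + k (A.det / ‖A‖)) →
  Pool.Agent.W360.MQ.RankOneConvex W → Pool.Agent.W360.MQ.Quasiconvex W

end

end Pool.Agent.TH316.DK
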